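import Pool.Agent.Helper96.AW.GoalsA
import Pool.Agent.Helper77.AF.FOR

/-!
# Project AW, packet TA: number of trees
-/

set_option autoImplicit false

namespace Pool.Agent.Helper12.AW.TA

open Finset Function
open Pool.Agent.Helper26.AF Pool.Agent.Helper26.AL

section tree

variable {V : Type} {H : SimpleGraph V}

/-- `f` moves every vertex towards `z`. -/
structure Par (H : SimpleGraph V) (z : V) (f : V → V) : Prop where
  root : f z = z
  step : ∀ x, x ≠ z → H.Adj x (f x) ∧ H.dist (f x) z < H.dist x z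

theorem par_step (hc : H.Connected) (z x : V) (hx : x ≠ z) :
    ∃ y, H.Adj x y ∧ H.dist y z < H.dist x z := by
  obtain ⟨p, hp⟩ := hc.exists_walk_length_eq_dist x z
  cases p with
  | nil => exact absurd rfl hx
  | cons h q =>
    refine ⟨_, h, ?_⟩
    rw [← hp, SimpleGraph.Walk.length_cons]
    have := SimpleGraph.dist_le q
    omega

theorem par_ex (hc : H.Connected) (z : V) : ∃ f, Par H z f := by
  classical
  have h1 : ∀ x, ∃ y, (x = z → y = z) ∧ (x ≠ z → H.Adj x y ∧ H.dist y z < H.dist x z) := by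
    intro x
    by_cases hx : x = z
    · exact ⟨z, fun _ => rfl, fun h => absurd hx h⟩
    · obtain ⟨y, hy⟩ := par_step hc z x hx
      exact ⟨y, fun h => absurd h hx, fun _ => hy⟩
  choose f hf using h1
  exact ⟨f, (hf z).1 rfl, fun x hx => (hf x).2 hx⟩

theorem par_iter {z : V} {f : V → V} (hf : Par H z f) :
    ∀ (n : ℕ) (x : V), H.dist x z ≤ n → ∃ i : ℕ, f^[i] x = z := by
  intro n
  induction n with
  | zero =>
    intro x hx
    by_cases h : x = z
    · exact ⟨0, h⟩
    · have := (hf.step x h).2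
      omega
  | succ n ih =>
    intro x hx
    by_cases h : x = z
    · exact ⟨0, h⟩
    · obtain ⟨i, hi⟩ := ih (f x) (by have := (hf.step x h).2; omega)
      exact ⟨i + 1, by rw [iterate_succ_apply]; exact hi⟩

theorem par_inj {z : V} {f : V → V} (hf : Par H z f) {x y : V} (hx : x ≠ z) (hy : y ≠ z)
    (h : s(x, f x) = s(y, f y)) : x = y := by
  rcases Sym2.eq_iff.mp h with h1 | h1
  · exact h1.1
  · have h2 := (hf.step x hx).2
    have h3 := (hf.step y hy).2
    rw [h1.2] at h2
    rw [← h1.1] at h3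
    omega

end tree

theorem par_adj {k : ℕ} {H : SimpleGraph (Fin k)} {z : Fin k} {f : Fin k → Fin k}
    (hf : Par H z f) (hn : ne H + 1 = k) (a b : Fin k) :
    H.Adj a b ↔ (a ≠ z ∧ b = f a) ∨ (b ≠ z ∧ a = f b) := by
  constructor
  · intro hab
    let φ : {x : Fin k // x ≠ z} → H.edgeSet := fun x =>
      ⟨s(x.1, f x.1), (hf.step x.1 x.2).1⟩
    have hφ : Injective φ := by
      intro x y hxy
      apply Subtype.ext
      exact par_inj hf x.2 y.2 (congrArg Subtype.val hxy)
    have hcard : Nat.card H.edgeSet ≤ Nat.card {x : Fin k // x ≠ z} := by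
      have h1 : Nat.card {x : Fin k // x ≠ z} = k - 1 := by
        rw [Nat.card_eq_fintype_card, Fintype.card_subtype_compl, Fintype.card_fin,
          Fintype.card_subtype_eq]
      have h2 : Nat.card H.edgeSet = ne H := rfl
      omega
    obtain ⟨⟨x, hx⟩, hxe⟩ := (hφ.bijective_of_nat_card_le hcard).2 ⟨s(a, b), hab⟩
    have h3 : s(x, f x) = s(a, b) := congrArg Subtype.val hxe
    rcases Sym2.eq_iff.mp h3 with h4 | h4
    · left
      exact ⟨h4.1 ▸ hx, by rw [← h4.1]; exact h4.2.symm⟩
    · right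
      exact ⟨h4.1 ▸ hx, by rw [← h4.1]; exact h4.2.symm⟩
  · rintro (⟨h1, h2⟩ | ⟨h1, h2⟩)
    · rw [h2]
      exact (hf.step a h1).1
    · rw [h2]
      exact (hf.step b h1).1.symm

theorem t : Pool.Agent.Helper96.AW.S_TA := by
  classical
  intro k hk
  have hex : ∀ H : {H : SimpleGraph (Fin k) // H.Connected ∧ ne H + 1 = k},
      ∃ f, Par H.1 (⟨0, hk⟩ : Fin k) f := fun H => par_ex H.2.1 _
  choose F hF using hex
  have hfor : ∀ H, IsFor ({(⟨0, hk⟩ : Fin k)} : Finset (Fin k)) (F H) := by
    intro H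
    refine ⟨?_, ?_⟩
    · intro x hx
      rw [Finset.mem_singleton] at hx
      rw [hx]
      exact (hF H).root
    · intro x
      obtain ⟨i, hi⟩ := par_iter (hF H) _ x le_rfl
      exact ⟨i, by rw [hi]; exact Finset.mem_singleton_self _⟩
  let Φ : {H : SimpleGraph (Fin k) // H.Connected ∧ ne H + 1 = k} →
      {f : Fin k → Fin k // IsFor ({(⟨0, hk⟩ : Fin k)} : Finset (Fin k)) f} :=
    fun H => ⟨F H, hfor H⟩
  have hΦ : Injective Φ := by
    intro H H' h
    have h1 : F H = F H' := congrArg Subtype.val h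
    apply Subtype.ext
    ext a b
    rw [par_adj (hF H) H.2.2, par_adj (hF H') H'.2.2, h1]
  have hle := Nat.card_le_card_of_injective Φ hΦ
  have hfc := Pool.Agent.Helper77.AF.goalFOR k {(⟨0, hk⟩ : Fin k)} (Finset.singleton_nonempty _)
  rw [Finset.card_singleton, one_mul] at hfc
  unfold Pool.Agent.Helper96.AW.trk
  refine hle.trans ?_
  rcases Nat.lt_or_ge 1 k with h2 | h2
  · have h3 : k ^ (k - 1) = k ^ (k - 2) * k := by
      rw [← pow_succ]
      congr 1
      omega
    rw [h3] at hfc
    exact le_of_eq (Nat.eq_of_mul_eq_mul_right (by omega) hfc)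
  · have h3 : k = 1 := by omega
    subst h3
    simpa using hfc.le

end Pool.Agent.Helper12.AW.TA
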